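import Mathlib

namespace Pool.Agent.Results.MP_0ef770_co.ConstSol

open Polynomial Filter

/-- The equation `x - 2y = p(z)` is partition regular over the positive integers: every finite
colouring of the positive integers has a monochromatic (not necessarily injective) solution. -/
def PartReg (p : ℤ[X]) : Prop :=
  ∀ (r : ℕ) (c : ℕ+ → Fin r), ∃ x y z : ℕ+, c x = c y ∧ c y = c z ∧
    ((x : ℕ) : ℤ) - 2 * ((y : ℕ) : ℤ) = p.eval ((z : ℕ) : ℤ)

theorem log_bounds {a b i j : ℕ} (ha : 0 < a) (h1 : 2 ^ i * a ≤ b) (h2 : b ≤ 2 ^ j * a) :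
    Nat.log 2 a + i ≤ Nat.log 2 b ∧ Nat.log 2 b ≤ Nat.log 2 a + j := by
  have key : ∀ k : ℕ, Nat.log 2 (2 ^ k * a) = Nat.log 2 a + k := by
    intro k
    induction k with
    | zero => simp
    | succ k ih =>
      have : 2 ^ (k + 1) * a = (2 ^ k * a) * 2 := by ring
      rw [this, Nat.log_mul_base (by norm_num) (by positivity), ih]
      ring
  constructor
  · rw [← key i]
    exact Nat.log_mono_right h1
  · rw [← key j]
    exact Nat.log_mono_right h2

/-- growth bounds for a polynomial of degree at least two with positive leading coefficient -/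
theorem growth (q : ℤ[X]) (hd : 2 ≤ q.natDegree) (hl : 0 < q.leadingCoeff) :
    ∃ N : ℕ, ∀ z : ℕ, N ≤ z → (z : ℤ) ^ 2 ≤ 2 * q.eval (z : ℤ) ∧
      q.eval (z : ℤ) ≤ (z : ℤ) ^ (q.natDegree + 1) := by
  set P : ℝ[X] := q.map (Int.castRingHom ℝ) with hP
  have hinj : Function.Injective (Int.castRingHom ℝ) := Int.cast_injective
  have hdeg : P.natDegree = q.natDegree := natDegree_map_eq_of_injective hinj q
  have hlead : P.leadingCoeff = (q.leadingCoeff : ℝ) := by
    rw [hP, leadingCoeff_map_of_injective hinj]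
    simp
  have hequiv := Polynomial.isEquivalent_atTop_lead P
  have hlit := hequiv.isLittleO
  have hbound := hlit.bound (show (0 : ℝ) < 1 / 2 by norm_num)
  rw [hlead, hdeg] at hbound
  obtain ⟨R, hR⟩ := eventually_atTop.1 hbound
  refine ⟨max ⌈R⌉₊ (max 1 (2 * q.leadingCoeff.toNat)), ?_⟩
  intro z hz
  have hzR : R ≤ (z : ℝ) := (Nat.le_ceil R).trans (by
    have : ⌈R⌉₊ ≤ z := le_trans (le_max_left _ _) hz
    exact_mod_cast this)
  have hz1 : 1 ≤ z := le_trans (le_trans (le_max_left _ _) (le_max_right _ _)) hz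
  have hz2 : 2 * q.leadingCoeff.toNat ≤ z :=
    le_trans (le_trans (le_max_right _ _) (le_max_right _ _)) hz
  have hz2' : 2 * q.leadingCoeff ≤ (z : ℤ) := by
    have h := Int.toNat_of_nonneg hl.le
    omega
  have h := hR z hzR
  have hev : eval (z : ℝ) P = ((q.eval (z : ℤ) : ℤ) : ℝ) := by
    have h0 := Polynomial.eval_intCast_map (Int.castRingHom ℝ) q (z : ℤ)
    rw [← hP, Int.cast_natCast] at h0
    rw [h0]
    simp
  set a : ℝ := (q.leadingCoeff : ℝ) with ha
  have ha1 : (1 : ℝ) ≤ a := by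
    rw [ha]; exact_mod_cast hl
  have hzpos : (0 : ℝ) < (z : ℝ) := by exact_mod_cast hz1
  have hz1' : (1 : ℝ) ≤ (z : ℝ) := by exact_mod_cast hz1
  have haz : 0 < a * (z : ℝ) ^ q.natDegree := by positivity
  simp only [Pi.sub_apply, Real.norm_eq_abs] at h
  rw [hev, abs_of_pos haz, abs_le] at h
  obtain ⟨h1, h2⟩ := h
  have hpow : (z : ℝ) ^ 2 ≤ (z : ℝ) ^ q.natDegree := pow_le_pow_right₀ hz1' hd
  constructor
  · have : ((z : ℤ) ^ 2 : ℝ) ≤ 2 * ((q.eval (z : ℤ) : ℤ) : ℝ) := by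
      have h3 : (z : ℝ) ^ q.natDegree ≤ a * (z : ℝ) ^ q.natDegree := by
        have : 0 ≤ (z : ℝ) ^ q.natDegree := by positivity
        nlinarith
      push_cast
      linarith
    exact_mod_cast this
  · have : ((q.eval (z : ℤ) : ℤ) : ℝ) ≤ ((z : ℤ) ^ (q.natDegree + 1) : ℝ) := by
      have h3 : 2 * a ≤ (z : ℝ) := by
        rw [ha]; exact_mod_cast hz2'
      have h4 : (2 * a) * (z : ℝ) ^ q.natDegree ≤ (z : ℝ) * (z : ℝ) ^ q.natDegree :=
        mul_le_mul_of_nonneg_right h3 (by positivity)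
      push_cast
      rw [pow_succ]
      nlinarith
    exact_mod_cast this

/-- If `w` lies between `z²/4` and `z ^ D` then the second colour separates `w` and `z`. -/
theorem second_colour {z w D : ℕ} (hz : 16 ≤ z) (hD : 2 ≤ D) (h1 : z ^ 2 ≤ 4 * w)
    (h2 : w ≤ z ^ D) :
    (Nat.log 2 ((Nat.log 2 w) ^ 2)) % (2 * D + 1) ≠ (Nat.log 2 ((Nat.log 2 z) ^ 2)) % (2 * D + 1) := by
  set L := Nat.log 2 z with hL
  set K := Nat.log 2 w with hK
  have hL4 : 4 ≤ L := by
    rw [hL]
    exact (Nat.le_log_iff_pow_le (by norm_num) (by omega)).2 (by norm_num; omega)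
  have hz1 : 2 ^ L ≤ z := Nat.pow_log_le_self 2 (by omega)
  have hz2 : z < 2 ^ (L + 1) := Nat.lt_pow_succ_log_self (by norm_num) z
  have hw0 : w ≠ 0 := by
    rintro rfl
    have : 16 ^ 2 ≤ z ^ 2 := Nat.pow_le_pow_left hz 2
    omega
  -- lower bound on K
  have hK1 : 2 * L - 2 ≤ K := by
    rw [hK]
    apply (Nat.le_log_iff_pow_le (by norm_num) hw0).2
    have h3 : 2 ^ (2 * L) ≤ z ^ 2 := by
      calc 2 ^ (2 * L) = (2 ^ L) ^ 2 := by rw [← pow_mul]; ring_nf
        _ ≤ z ^ 2 := Nat.pow_le_pow_left hz1 2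
    have h4 : 2 ^ (2 * L) = 4 * 2 ^ (2 * L - 2) := by
      have : 2 * L = (2 * L - 2) + 2 := by omega
      conv_lhs => rw [this, pow_add]
      ring
    omega
  have hK2 : K ≤ 2 * D * L := by
    have h3 : w < 2 ^ ((L + 1) * D) := by
      calc w ≤ z ^ D := h2
        _ < (2 ^ (L + 1)) ^ D := Nat.pow_lt_pow_left hz2 (by omega)
        _ = 2 ^ ((L + 1) * D) := by rw [← pow_mul]
    have h4 : K < (L + 1) * D := by
      rw [hK]
      exact (Nat.log_lt_iff_lt_pow (by norm_num) hw0).2 h3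
    nlinarith
  have hlow : 2 ^ 1 * L ^ 2 ≤ K ^ 2 := by
    have h5 : 3 * L ≤ 2 * K := by omega
    nlinarith
  have hD' : 2 * D ≤ 2 ^ D := by
    clear * - hD
    induction D, hD using Nat.le_induction with
    | base => norm_num
    | succ n hn ih => rw [pow_succ]; omega
  have hupp : K ^ 2 ≤ 2 ^ (2 * D) * L ^ 2 := by
    calc K ^ 2 ≤ (2 * D * L) ^ 2 := Nat.pow_le_pow_left hK2 2
      _ = (2 * D) ^ 2 * L ^ 2 := by ring
      _ ≤ (2 ^ D) ^ 2 * L ^ 2 := Nat.mul_le_mul_right _ (Nat.pow_le_pow_left hD' 2)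
      _ = 2 ^ (2 * D) * L ^ 2 := by rw [← pow_mul]; ring_nf
  have hpos : 0 < L ^ 2 := by positivity
  obtain ⟨hA, hB⟩ := log_bounds hpos hlow hupp
  intro hEq
  have hmod : (Nat.log 2 (L ^ 2)) ≡ (Nat.log 2 (K ^ 2)) [MOD (2 * D + 1)] := hEq.symm
  have hdvd := (Nat.modEq_iff_dvd' (by omega)).1 hmod
  have := Nat.le_of_dvd (by omega) hdvd
  omega

/-- the first colour separates numbers whose squares have ratio between `2` and `16` -/
theorem first_colour {x y : ℕ} (hy : 0 < y) (h1 : 2 * y ^ 2 ≤ x ^ 2) (h2 : x ^ 2 ≤ 16 * y ^ 2) :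
    (Nat.log 2 (x ^ 2)) % 5 ≠ (Nat.log 2 (y ^ 2)) % 5 := by
  have hpos : 0 < y ^ 2 := by positivity
  obtain ⟨hA, hB⟩ := log_bounds (i := 1) (j := 4) hpos (by simpa using h1) (by simpa using h2)
  omega

/-- **Main theorem.** For `p ∈ ℤ[t]` with `p(0) = 0` and degree at least two, the equation
`x - 2y = p(z)` is partition regular if and only if it has a constant solution
`x = y = z = n`, that is, `p(n) = -n` for some positive integer `n`. -/
theorem result (p : ℤ[X]) (_hp0 : p.eval 0 = 0) (hd : 2 ≤ p.natDegree) :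
    PartReg p ↔ ∃ n : ℕ+, p.eval ((n : ℕ) : ℤ) = -((n : ℕ) : ℤ) := by
  constructor
  · intro hPR
    by_contra hno
    push Not at hno
    have hne : p.leadingCoeff ≠ 0 := by
      intro h0
      rw [leadingCoeff_eq_zero] at h0
      rw [h0] at hd
      simp at hd
    -- common statement
    obtain ⟨N₀, hN₀⟩ : ∃ N₀ : ℕ,
        (0 < p.leadingCoeff ∧ ∀ z : ℕ, N₀ ≤ z → (z : ℤ) ^ 2 ≤ 2 * p.eval (z : ℤ) ∧
          p.eval (z : ℤ) ≤ (z : ℤ) ^ (p.natDegree + 1)) ∨
        (p.leadingCoeff < 0 ∧ ∀ z : ℕ, N₀ ≤ z → (z : ℤ) ^ 2 ≤ 2 * (- p.eval (z : ℤ)) ∧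
          - p.eval (z : ℤ) ≤ (z : ℤ) ^ (p.natDegree + 1)) := by
      rcases lt_or_gt_of_ne hne with h | h
      · have hlq : 0 < (-p).leadingCoeff := by
          rw [leadingCoeff_neg]; omega
        obtain ⟨N, hN⟩ := growth (-p) (by rwa [natDegree_neg]) hlq
        refine ⟨N, Or.inr ⟨h, ?_⟩⟩
        intro z hz
        have := hN z hz
        rwa [natDegree_neg, eval_neg] at this
      · obtain ⟨N, hN⟩ := growth p hd h
        exact ⟨N, Or.inl ⟨h, hN⟩⟩
    set N : ℕ := max N₀ 16 with hN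
    set D : ℕ := p.natDegree + 2 with hD
    let col : ℕ+ → Fin (N + 1) × Fin 5 × Fin (2 * D + 1) := fun x =>
      (⟨min (x : ℕ) N, by omega⟩,
        ⟨(Nat.log 2 ((x : ℕ) ^ 2)) % 5, Nat.mod_lt _ (by norm_num)⟩,
        ⟨(Nat.log 2 ((Nat.log 2 (x : ℕ)) ^ 2)) % (2 * D + 1), Nat.mod_lt _ (by omega)⟩)
    obtain ⟨x, y, z, hxy, hyz, heq⟩ := hPR _ (fun x => Fintype.equivFin _ (col x))
    have hxy' : col x = col y := (Fintype.equivFin _).injective hxy
    have hyz' : col y = col z := (Fintype.equivFin _).injective hyz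
    simp only [col, Prod.mk.injEq, Fin.mk.injEq] at hxy' hyz'
    obtain ⟨a1, a2, a3⟩ := hxy'
    obtain ⟨b1, b2, b3⟩ := hyz'
    have hx0 : 0 < (x : ℕ) := x.pos
    have hy0 : 0 < (y : ℕ) := y.pos
    have hz0 : 0 < (z : ℕ) := z.pos
    rcases lt_or_ge (z : ℕ) N with hzN | hzN
    · -- small z
      have e1 : (y : ℕ) = z := by omega
      have e2 : (x : ℕ) = z := by omega
      apply hno z
      rw [← heq, e1, e2]
      ring
    · have hzN0 : N₀ ≤ (z : ℕ) := le_trans (le_max_left _ _) hzN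
      have hz16 : 16 ≤ (z : ℕ) := le_trans (le_max_right _ _) hzN
      rcases hN₀ with ⟨_, hb⟩ | ⟨_, hb⟩
      · -- positive leading coefficient
        obtain ⟨hb1, hb2⟩ := hb z hzN0
        rcases le_or_gt (p.eval ((z : ℕ) : ℤ)) (2 * ((y : ℕ) : ℤ)) with hc | hc
        · -- 2y < x ≤ 4y
          have hpz : 0 < p.eval ((z : ℕ) : ℤ) := by
            have : (0 : ℤ) < ((z : ℕ) : ℤ) ^ 2 := by positivity
            omega
          have h3 : 2 * (y : ℕ) ≤ x := by omega
          have h4 : (x : ℕ) ≤ 4 * y := by omega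
          exact first_colour hy0 (by nlinarith) (by nlinarith) a2
        · -- p(z) < x < 2 p(z)
          have h3 : (z : ℕ) ^ 2 ≤ 4 * (x : ℕ) := by
            zify
            nlinarith
          have h4 : (x : ℕ) ≤ (z : ℕ) ^ D := by
            zify
            rw [hD, show p.natDegree + 2 = (p.natDegree + 1) + 1 by ring, pow_succ]
            have h5 : (0 : ℤ) < ((z : ℕ) : ℤ) ^ (p.natDegree + 1) := by positivity
            have h6 : (16 : ℤ) ≤ ((z : ℕ) : ℤ) := by exact_mod_cast hz16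
            nlinarith
          exact second_colour hz16 (by omega) h3 h4 (a3.trans b3)
      · -- negative leading coefficient
        obtain ⟨hb1, hb2⟩ := hb z hzN0
        rcases le_or_gt (8 * (- p.eval ((z : ℕ) : ℤ))) ((x : ℕ) : ℤ) with hc | hc
        · have hpz : 0 < - p.eval ((z : ℕ) : ℤ) := by
            have : (0 : ℤ) < ((z : ℕ) : ℤ) ^ 2 := by positivity
            omega
          have h3 : 16 * (y : ℕ) ≤ 9 * x := by omega
          have h4 : (x : ℕ) ≤ 2 * y := by omega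
          exact first_colour hy0 (by nlinarith) (by nlinarith) a2
        · have h3 : (z : ℕ) ^ 2 ≤ 4 * (y : ℕ) := by
            zify
            nlinarith
          have h4 : (y : ℕ) ≤ (z : ℕ) ^ D := by
            zify
            rw [hD, show p.natDegree + 2 = (p.natDegree + 1) + 1 by ring, pow_succ]
            have h5 : (0 : ℤ) < ((z : ℕ) : ℤ) ^ (p.natDegree + 1) := by positivity
            have h6 : (16 : ℤ) ≤ ((z : ℕ) : ℤ) := by exact_mod_cast hz16
            nlinarith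
          exact second_colour hz16 (by omega) h3 h4 b3
  · rintro ⟨n, hn⟩ r c
    refine ⟨n, n, n, rfl, rfl, ?_⟩
    rw [hn]
    ring

end Pool.Agent.Results.MP_0ef770_co.ConstSol
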